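import Pool.Agent.UL4.Stmts
import Pool.Agent.Helper88_UL3.LPD

/-!
# Squad UL4, row LPG: the density of the double lattice packing
-/

set_option autoImplicit false

namespace Pool.Agent.UL4.H7

open MeasureTheory Set Filter Pool.Agent.UL3 Pool.Agent.UL3.H88
open scoped ENNReal Topology

/-- the copies -/
noncomputable def g (v : Fin 3 → E3) (z : E3) (p : (Fin 3 → ℤ) × Bool) : E3 ≃ᵢ E3 :=
  if p.2 then IsometryEquiv.subLeft ((2 : ℝ) • z + lam v p.1) else IsometryEquiv.addRight (lam v p.1)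

theorem g_false (v : Fin 3 → E3) (z : E3) (n : Fin 3 → ℤ) (x : E3) :
    g v z (n, false) x = x + lam v n := rfl

theorem g_true (v : Fin 3 → E3) (z : E3) (n : Fin 3 → ℤ) (x : E3) :
    g v z (n, true) x = (2 : ℝ) • z + lam v n - x := rfl

theorem g_int (v : Fin 3 → E3) (z : E3) (p : (Fin 3 → ℤ) × Bool) (K : Set E3) :
    interior ((g v z p) '' K) = (g v z p) '' interior K :=
  ((g v z p).toHomeomorph.image_interior K).symm

section

variable {K : Set E3} {v : Fin 3 → E3} {z : E3}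

theorem disj0 (hdis : ∀ n : Fin 3 → ℤ, n ≠ 0 → Disjoint (interior K)
      ((fun x => x + (2 : ℝ) • ∑ i, (n i : ℝ) • v i) '' interior K)) {m n : Fin 3 → ℤ}
    (hmn : m ≠ n) {x y : E3} (hx : x ∈ interior K) (hy : y ∈ interior K) :
    x + lam v m ≠ y + lam v n := by
  intro h
  have hne : m - n ≠ 0 := sub_ne_zero.2 hmn
  have h3 := hdis (m - n) hne
  refine Set.disjoint_left.1 h3 hy ⟨x, hx, ?_⟩
  have h4 : lam v (m - n) = lam v m - lam v n := lam_sub v m n
  have h5 : x + lam v (m - n) = y := by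
    rw [h4, ← add_sub_assoc, h, add_sub_cancel_right]
  exact h5

theorem disj1 (hcv : Convex ℝ K)
    (hz : ∀ n : Fin 3 → ℤ, z + ∑ i, (n i : ℝ) • v i ∉ interior K) {m n : Fin 3 → ℤ}
    {x y : E3} (hx : x ∈ interior K) (hy : y ∈ interior K) :
    x + lam v m ≠ (2 : ℝ) • z + lam v n - y := by
  intro h
  have h4 : lam v (n - m) = lam v n - lam v m := lam_sub v n m
  have h1 := hcv.interior hx hy (a := 1 / 2) (b := 1 / 2) (by norm_num) (by norm_num)
    (by norm_num)
  apply hz (n - m)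
  have h5 : x + y = (2 : ℝ) • z + lam v (n - m) := by
    rw [h4]
    have h6 : x = (2 : ℝ) • z + lam v n - y - lam v m := by
      rw [← h, add_sub_cancel_right]
    rw [h6]
    abel
  have h7 : (1 / 2 : ℝ) • x + (1 / 2 : ℝ) • y = z + ∑ i, ((n - m) i : ℝ) • v i := by
    rw [← smul_add, h5]
    unfold lam
    rw [← smul_add, smul_smul]
    norm_num
  rwa [h7] at h1

theorem disj (hcv : Convex ℝ K) (hdis : ∀ n : Fin 3 → ℤ, n ≠ 0 → Disjoint (interior K)
      ((fun x => x + (2 : ℝ) • ∑ i, (n i : ℝ) • v i) '' interior K))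
    (hz : ∀ n : Fin 3 → ℤ, z + ∑ i, (n i : ℝ) • v i ∉ interior K)
    {p q : (Fin 3 → ℤ) × Bool} (hpq : p ≠ q) :
    Disjoint ((g v z p) '' interior K) ((g v z q) '' interior K) := by
  rw [Set.disjoint_left]
  rintro _ ⟨x, hx, rfl⟩ ⟨y, hy, hxy⟩
  obtain ⟨m, a⟩ := p
  obtain ⟨n, b⟩ := q
  cases a <;> cases b
  · rw [g_false, g_false] at hxy
    exact disj0 hdis (fun h => hpq (by rw [h])) hy hx hxy
  · rw [g_false, g_true] at hxy
    exact disj1 hcv hz hx hy hxy.symm
  · rw [g_false, g_true] at hxy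
    exact disj1 hcv hz hy hx hxy
  · rw [g_true, g_true] at hxy
    have hmn : m ≠ n := fun h => hpq (by rw [h])
    refine disj0 hdis hmn hy hx ?_
    have h1 : y + lam v m = (2 : ℝ) • z + lam v n - ((2 : ℝ) • z + lam v n - y) + lam v m := by
      abel
    rw [h1, hxy]
    abel

theorem g_meas (v : Fin 3 → E3) (z : E3) (p : (Fin 3 → ℤ) × Bool) (S : Set E3) :
    (volume : Measure E3) ((g v z p) '' S) = volume S := by
  obtain ⟨m, a⟩ := p
  cases a
  · exact meas_shift S (lam v m)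
  · have h1 : (g v z (m, true)) '' S = (fun x => (2 : ℝ) • z + lam v m - x) ⁻¹' S := by
      ext y
      constructor
      · rintro ⟨x, hx, rfl⟩
        rw [g_true]
        show (2 : ℝ) • z + lam v m - ((2 : ℝ) • z + lam v m - x) ∈ S
        rwa [sub_sub_cancel]
      · intro hy
        refine ⟨_, hy, ?_⟩
        rw [g_true, sub_sub_cancel]
    rw [h1]
    exact (Measure.measurePreserving_sub_left volume ((2 : ℝ) • z + lam v m)).measure_preimage_equiv
      (f := MeasurableEquiv.subLeft _) S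

/-- the packing -/
theorem pack2 (hcv : Convex ℝ K)
    (hdis : ∀ n : Fin 3 → ℤ, n ≠ 0 → Disjoint (interior K)
      ((fun x => x + (2 : ℝ) • ∑ i, (n i : ℝ) • v i) '' interior K))
    (hz : ∀ n : Fin 3 → ℤ, z + ∑ i, (n i : ℝ) • v i ∉ interior K)
    {ρ : ℝ} (hρ : ∀ x ∈ K, ‖x‖ ≤ ρ) (s : ℝ) (A : Set E3)
    (hA : ∀ p, (g v z p) '' K ⊆ A) :
    2 * num v s * volume K ≤ (volume : Measure E3) (A ∩ Metric.ball 0 (s + (ρ + ‖(2 : ℝ) • z‖))) := by
  have h1 : (⋃ q : Near v s × Bool, (g v z (q.1.1, q.2)) '' interior K) ⊆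
      A ∩ Metric.ball 0 (s + (ρ + ‖(2 : ℝ) • z‖)) := by
    refine iUnion_subset fun q => ?_
    rintro _ ⟨x, hx, rfl⟩
    refine ⟨hA _ ⟨x, interior_subset hx, rfl⟩, ?_⟩
    rw [Metric.mem_ball, dist_zero_right]
    have h2 := hρ x (interior_subset hx)
    have h3 := q.1.2
    have h4 := norm_nonneg ((2 : ℝ) • z)
    obtain ⟨⟨n, hn⟩, b⟩ := q
    cases b
    · rw [g_false]
      exact lt_of_le_of_lt (norm_add_le _ _) (by linarith)
    · rw [g_true]
      have h5 : ‖(2 : ℝ) • z + lam v n - x‖ ≤ ‖(2 : ℝ) • z‖ + ‖lam v n‖ + ‖x‖ :=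
        (norm_sub_le _ _).trans (add_le_add_left (norm_add_le _ _) _)
      exact lt_of_le_of_lt h5 (by linarith)
  have h2 : (volume : Measure E3) K = volume (interior K) :=
    (measure_congr (interior_ae_eq_of_null_frontier (hcv.addHaar_frontier volume))).symm
  refine le_trans (le_of_eq ?_) (measure_mono h1)
  rw [measure_iUnion]
  · have h3 : ∑' q : Near v s × Bool, (volume : Measure E3) ((g v z (q.1.1, q.2)) '' interior K)
        = ∑' _ : Near v s × Bool, volume K := by
      refine tsum_congr fun q => ?_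
      rw [g_meas, h2]
    have h5 : ∑' _ : Near v s × Bool, (volume : Measure E3) K
        = ∑' _ : Near v s, ∑' _ : Bool, (volume : Measure E3) K :=
      ENNReal.tsum_prod (f := fun (_ : Near v s) (_ : Bool) => (volume : Measure E3) K)
    rw [h3, h5]
    have h4 : ∀ _ : Near v s, ∑' _ : Bool, (volume : Measure E3) K = 2 * volume K := by
      intro _
      rw [tsum_bool, two_mul]
    rw [tsum_congr h4]
    unfold num
    rw [mul_assoc, ← ENNReal.tsum_mul_right, ← ENNReal.tsum_mul_left]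
    refine tsum_congr fun n => ?_
    rw [one_mul]
  · intro p q hpq
    refine disj hcv hdis hz ?_
    intro h
    apply hpq
    obtain ⟨⟨m, hm⟩, a⟩ := p
    obtain ⟨⟨n, hn⟩, b⟩ := q
    have e1 : m = n := congrArg Prod.fst h
    have e2 : a = b := congrArg Prod.snd h
    subst e1
    subst e2
    rfl
  · intro q
    have h3 : IsOpen ((g v z (q.1.1, q.2)) '' interior K) :=
      (g v z (q.1.1, q.2)).toHomeomorph.isOpenMap _ isOpen_interior
    exact h3.measurableSet

end

/-- **LPG**. -/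
theorem lpg : LpgStmt := by
  intro K v z hK hcv hint hdt hdis hz
  obtain ⟨b, hb, hF⟩ := exists_basis v hdt
  obtain ⟨e⟩ : Nonempty (ℕ ≃ (Fin 3 → ℤ) × Bool) := nonempty_equiv_of_countable
  refine ⟨fun i => g v z (e i), ?_, ?_, ?_⟩
  · intro i
    show (∃ c : E3, ∀ x, g v z (e i) x = x + c) ∨ ∃ c : E3, ∀ x, g v z (e i) x = c - x
    obtain ⟨m, a⟩ := e i
    cases a
    · exact Or.inl ⟨lam v m, fun x => g_false v z m x⟩
    · exact Or.inr ⟨(2 : ℝ) • z + lam v m, fun x => g_true v z m x⟩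
  · intro i j hij
    rw [g_int, g_int]
    exact disj hcv hdis hz fun h => hij (e.injective h)
  · obtain ⟨d, hd⟩ := (ZSpan.fundamentalDomain_isBounded b).exists_norm_le
    obtain ⟨ρ₀, hρ₀⟩ := hK.isBounded.exists_norm_le
    obtain ⟨ρ, hρe⟩ : ∃ ρ : ℝ, ρ = ρ₀ + ‖(2 : ℝ) • z‖ := ⟨_, rfl⟩
    obtain ⟨D, hD⟩ : ∃ D : ℝ, D = max (d + ρ) 0 := ⟨_, rfl⟩
    have hD0 : 0 ≤ D := by rw [hD]; exact le_max_right _ _
    have hD1 : d + ρ ≤ D := by rw [hD]; exact le_max_left _ _
    rw [← (lower_tendsto (V K / (4 * dt v)) D).limsup_eq]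
    refine limsup_le_limsup ?_
    filter_upwards [eventually_gt_atTop D] with R hR
    have hR0 : 0 < R := lt_of_le_of_lt hD0 hR
    have hBall : ∀ r : ℝ, 0 ≤ r → (volume : Measure E3) (Metric.ball 0 r) =
        ENNReal.ofReal (r ^ 3) * volume (Metric.ball (0 : E3) 1) := by
      intro r hr
      have h := Measure.addHaar_ball (volume : Measure E3) 0 hr
      rwa [finrank_euclideanSpace, Fintype.card_fin] at h
    have hβ0 : (volume : Measure E3) (Metric.ball 0 R) ≠ 0 :=
      (Metric.measure_ball_pos volume _ hR0).ne'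
    have hβt : (volume : Measure E3) (Metric.ball 0 R) ≠ ⊤ := measure_ball_lt_top.ne
    have hVK : (volume : Measure E3) K = ENNReal.ofReal (V K) :=
      (ofReal_measureReal hK.measure_lt_top.ne).symm
    have h1 := cover hb hd (R - D)
    have h2 := pack2 hcv hdis hz hρ₀ (R - D + d)
      (⋃ i : ℕ, (g v z (e i)) '' K) (by
        intro p
        refine subset_iUnion_of_subset (e.symm p) ?_
        rw [Equiv.apply_symm_apply])
    rw [← hρe] at h2
    have h3 : (volume : Measure E3) ((⋃ i : ℕ, (g v z (e i)) '' K) ∩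
        Metric.ball 0 (R - D + d + ρ)) ≤
        (volume : Measure E3) ((⋃ i : ℕ, (g v z (e i)) '' K) ∩ Metric.ball 0 R) :=
      measure_mono (inter_subset_inter_right _ (Metric.ball_subset_ball (by linarith)))
    have h4 := h2.trans h3
    rw [hF] at h1
    rw [hVK] at h4
    rw [hBall _ (by linarith)] at h1
    rw [ENNReal.le_div_iff_mul_le (Or.inl hβ0) (Or.inl hβt), hBall R hR0.le]
    have h8 : 0 < 8 * dt v := by positivity
    have hV0 : 0 ≤ V K := measureReal_nonneg
    have hRD : 0 ≤ R - D := by linarith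
    have h5 : ENNReal.ofReal (V K / (4 * dt v) * ((R - D) / R) ^ 3) *
        (ENNReal.ofReal (R ^ 3) * volume (Metric.ball (0 : E3) 1)) =
        ENNReal.ofReal ((R - D) ^ 3) * volume (Metric.ball (0 : E3) 1) *
          (2 * ENNReal.ofReal (V K)) / ENNReal.ofReal (8 * dt v) := by
      have e1 : V K / (4 * dt v) * ((R - D) / R) ^ 3 * R ^ 3 =
          (R - D) ^ 3 * (2 * V K) / (8 * dt v) := by
        field_simp
        ring
      rw [← mul_assoc, ← ENNReal.ofReal_mul (by positivity), e1,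
        ENNReal.ofReal_div_of_pos h8, ENNReal.ofReal_mul (by positivity),
        ENNReal.ofReal_mul (by norm_num), ENNReal.ofReal_ofNat]
      simp only [div_eq_mul_inv]
      ring
    rw [h5]
    refine ENNReal.div_le_of_le_mul' ?_
    calc ENNReal.ofReal ((R - D) ^ 3) * volume (Metric.ball (0 : E3) 1) *
          (2 * ENNReal.ofReal (V K))
        ≤ num v (R - D + d) * ENNReal.ofReal (8 * dt v) * (2 * ENNReal.ofReal (V K)) :=
          mul_le_mul_left h1 _
      _ = ENNReal.ofReal (8 * dt v) * (2 * num v (R - D + d) * ENNReal.ofReal (V K)) := by ring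
      _ ≤ _ := mul_le_mul_right h4 _

end Pool.Agent.UL4.H7
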